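import Pool.Agent.Q37.TD.Mis

set_option autoImplicit false

/-!
# The `3x+d` maps and all moduli prime to `d`, uniformly in `d`

Let `S` be a set of integers invariant under the `3x+d` map `T_d` and its inverse, for example the basin of
a cycle or the set of the integers whose orbits meet a given finite set infinitely often.

(1) `S` has a level of distribution beyond the square root: the numbers of the elements `0 < s x ≤ N` of `S`
(`s = 1` or `s = -1`) in the residue classes modulo `q` are as expected, on average over the moduli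
`Q ≤ q < 2 Q` prime to `d`, for arbitrary classes, if `Q ≤ √(N / |d|) exp ((log (N / |d|)) ^ (1 / 2 - δ))`;
uniformly in `d`, `S` and the classes. (2) A theorem of Barban-Davenport-Halberstam type: the variance over
all classes to all moduli `Q ≤ q < 2 Q` prime to `d` is at most `ε N ^ 2 + 288 Q |d| N`, uniformly in `d`,
`S` and `Q`. (3) If `3` does not divide `d` and `S` has an element prime to `3` of the sign `s`, then for every
`ε > 0` there is `K` such that for all but `ε Q ^ 2` of the pairs `(q, a)`, `Q ≤ q < 2 Q` prime to `d`,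
`0 ≤ a < q`, the class of `a` modulo `q` has an element `x` of `S`, `0 < s x ≤ K Q`. (4) So for given `d`
the conjecture (a finite set meets all orbits of `T_d`) can be decided by at most `K` integers of a small
positive proportion of the residue classes modulo `q`, for arbitrarily large `q`.

Method: a class modulo `d` is a copy of the integers on which `T_d` acts like the `3x+1` map near the `2`-adic
number `x / d`; so the part of `S` in a class modulo `d` is a union of intervals outside a small set of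
classes modulo a power of two, the position of which depends on `d` and on the class. The results for
such sets (`Pool.Agent.Q37.TD.Gen`: large sieve and equidistribution of the intervals) are added up over the
classes modulo `d`; multiplication by `d` permutes the classes modulo `q`.
-/

namespace Pool.Agent.Results.MP_d0d59f_nt.AllModuli

/-- The map `T_d` on the integers. -/
def T (d x : ℤ) : ℤ := if x % 2 = 0 then x / 2 else (3 * x + d) / 2

/-- `S` is invariant under `T_d` and its inverse. -/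
def Invariant (d : ℤ) (S : Set ℤ) : Prop := ∀ x : ℤ, x ∈ S ↔ T d x ∈ S

/-- The number of the elements `x` of `S` with `0 < s x ≤ N` and `s x ≡ a` modulo `q`. -/
noncomputable def count (S : Set ℤ) (s : ℤ) (N q : ℕ) (a : ℤ) : ℕ :=
  {x : ℤ | 0 < s * x ∧ s * x ≤ N ∧ s * x ≡ a [ZMOD q] ∧ x ∈ S}.ncard

/-- The pairs `(q, a)`, `Q ≤ q < 2 Q`, `q` prime to `d`, `0 ≤ a < q`, such that no element `x` of `S` satisfies
`0 < s x ≤ X` and `s x ≡ a` modulo `q`. -/
def Missed (S : Set ℤ) (s d : ℤ) (X Q : ℕ) : Set (ℕ × ℕ) :=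
  {p : ℕ × ℕ | Q ≤ p.1 ∧ p.1 < 2 * Q ∧ p.1.Coprime d.natAbs ∧ p.2 < p.1 ∧
    ∀ x ∈ S, 0 < s * x → s * x ≤ X → ¬ s * x ≡ p.2 [ZMOD p.1]}

/-- The orbit of `x` under `T_d` meets `F` infinitely often. -/
def MeetsInf (d : ℤ) (F : Finset ℤ) (x : ℤ) : Prop := ∀ J : ℕ, ∃ j, J ≤ j ∧ (T d)^[j] x ∈ F

/-! ### proofs -/

open Finset Filter Topology Pool.Agent.Q37.BV Pool.Agent.Q37.TD Pool.Agent.H499R2.CO

theorem T_eq (d : ℤ) : T d = Tz d := rfl

theorem meets_of_all {d : ℤ} {F : Finset ℤ} (h : ∀ x : ℤ, ∃ j : ℕ, (T d)^[j] x ∈ F) (x : ℤ) : MeetsInf d F x := by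
  intro J
  obtain ⟨j, hj⟩ := h ((T d)^[J] x)
  refine ⟨j + J, Nat.le_add_left _ _, ?_⟩
  rw [Function.iterate_add_apply]
  exact hj

/-- **The theorem.** -/
theorem result :
    -- (1) the level of distribution
    (∀ δ : ℝ, 0 < δ → δ < 1 / 2 → ∀ ε : ℝ, 0 < ε → ∃ N₀ : ℕ, ∀ d : ℤ, d % 2 = 1 →
      ∀ S : Set ℤ, Invariant d S → ∀ s : ℤ, s = 1 ∨ s = -1 → ∀ N : ℕ, N₀ * d.natAbs ≤ N → ∀ Q : ℕ, 1 ≤ Q →
      (Q : ℝ) ≤ √ ((N : ℝ) / d.natAbs) * Real.exp (Real.log ((N : ℝ) / d.natAbs) ^ (1 / 2 - δ)) →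
      ∀ a : ℕ → ℤ, ∑ q ∈ Finset.Ico Q (2 * Q) with q.Coprime d.natAbs,
        |(count S s N q (a q) : ℝ) - count S s N 1 0 / q| ≤ ε * N) ∧
    -- (2) the variance over all residue classes
    (∀ ε : ℝ, 0 < ε → ∃ N₀ : ℕ, ∀ d : ℤ, d % 2 = 1 →
      ∀ S : Set ℤ, Invariant d S → ∀ s : ℤ, s = 1 ∨ s = -1 → ∀ N : ℕ, N₀ * d.natAbs ≤ N → ∀ Q : ℕ, 1 ≤ Q →
        ∑ q ∈ Finset.Ico Q (2 * Q) with q.Coprime d.natAbs, ∑ a ∈ Finset.range q,
          ((count S s N q (a : ℤ) : ℝ) - count S s N 1 0 / q) ^ 2 ≤ ε * N ^ 2 + 288 * Q * d.natAbs * N) ∧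
    ∀ d : ℤ, d % 2 = 1 → ¬ (3 : ℤ) ∣ d →
      -- (3) small elements in almost all residue classes
      (∀ S : Set ℤ, Invariant d S → ∀ s : ℤ, s = 1 ∨ s = -1 → (∃ x ∈ S, 0 < s * x ∧ ¬ (3 : ℤ) ∣ x) →
        ∀ ε : ℝ, 0 < ε → ∃ K : ℕ, ∃ Q₀ : ℕ, ∀ Q : ℕ, Q₀ ≤ Q →
          ((Missed S s d (K * Q) Q).ncard : ℝ) ≤ ε * Q ^ 2) ∧
      -- (4) the question for the map `T_d`
      ((∃ F : Finset ℤ, ∀ x : ℤ, ∃ j : ℕ, (T d)^[j] x ∈ F) ↔
        ∃ F : Finset ℤ, ∀ s : ℤ, s = 1 ∨ s = -1 → ∃ c : ℝ, 0 < c ∧ ∀ K Q₀ : ℕ, ∃ Q : ℕ, Q₀ ≤ Q ∧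
          c * Q ^ 2 ≤ ((Missed {x | ¬ MeetsInf d F x} s d (K * Q) Q).ncard : ℝ)) := by
  refine ⟨?_, ?_, ?_⟩
  · intro δ hδ hδ2 ε hε
    obtain ⟨N₀, -, h⟩ := level_d hδ hδ2 hε
    refine ⟨N₀, fun d hd S hS s hs N hN Q hQ hQl a => ?_⟩
    have h1 := h d hd S hS s hs N hN Q hQ hQl a
    simp_rw [dF_cnt hs] at h1
    exact h1
  · intro ε hε
    obtain ⟨N₀, -, h⟩ := bdh_d hε
    refine ⟨N₀, fun d hd S hS s hs N hN Q hQ => ?_⟩
    have h1 := h d hd S hS s hs N hN Q hQ
    simp_rw [dF_cnt hs] at h1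
    exact h1
  · intro d hd hd3
    constructor
    · intro S hS s hs hne ε hε
      obtain ⟨l, -, -, hl, h1, -⟩ := Pool.Agent.H668.SM.inv_smooth_d hd hd3 hs (S := S) hS
      have h2 := dens_count (P' := fun n => s * (n : ℤ) ∈ S) (hl hne) h1 (fun n hn => by
        have := hn 0 0 0 (by simp)
        simpa using this)
      exact miss_small hd hS hs (half_pos (hl hne)) h2 hε
    · constructor
      · rintro ⟨F, hF⟩
        refine ⟨F, fun s _ => ⟨1 / (2 * (d.natAbs : ℝ)), ?_, fun K Q₀ => ?_⟩⟩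
        · have hd0 : 0 < d.natAbs := by
            apply Int.natAbs_pos.2
            rintro rfl; norm_num at hd
          positivity
        · obtain ⟨Q₁, h1⟩ := pairs_ge hd
          refine ⟨max Q₀ Q₁, le_max_left _ _, ?_⟩
          refine (h1 (max Q₀ Q₁) (le_max_right _ _)).trans (le_of_eq ?_)
          congr 2
          ext ⟨q, a⟩
          constructor
          · rintro ⟨g1, g2, g3, g4⟩
            exact ⟨g1, g2, g3, g4, fun x hx => absurd (meets_of_all hF x) hx⟩
          · rintro ⟨g1, g2, g3, g4, _⟩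
            exact ⟨g1, g2, g3, g4⟩
      · rintro ⟨F, hF⟩
        by_contra hne
        have hne' : ¬ ∃ F : Finset ℤ, ∀ x : ℤ, ∃ j : ℕ, (Tz d)^[j] x ∈ F := hne
        obtain ⟨s, hs, η, hη, h1⟩ := (Pool.Agent.H668.SM.q1_d hd hd3).1 hne' F
        obtain ⟨c, hc, h2⟩ := hF s hs
        have h3 := dens_count (P' := fun n => s * (n : ℤ) ∈ {x | ¬ MeetsInf d F x}) hη h1 (fun n hn => by
          have := hn 0 0 0 (by simp)
          show ¬ Pool.Agent.H668.SM.MI d F (s * (n : ℤ))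
          simpa using this)
        have hinv : InvD d {x | ¬ MeetsInf d F x} := fun x => not_congr (Pool.Agent.H668.SM.MI_inv d F x)
        obtain ⟨K, Q₀, h4⟩ := miss_small hd hinv hs (half_pos hη) h3 (show 0 < c / 2 by positivity)
        obtain ⟨Q, hQ, h5⟩ := h2 K (max Q₀ 1)
        have h6 := h4 Q ((le_max_left _ _).trans hQ)
        have hQ1 : 1 ≤ Q := (le_max_right _ _).trans hQ
        have hQ0 : (0 : ℝ) < Q := by exact_mod_cast hQ1
        have h7 : ((Missed {x | ¬ MeetsInf d F x} s d (K * Q) Q).ncard : ℝ) ≤ c / 2 * Q ^ 2 := h6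
        have : 0 < c * (Q : ℝ) ^ 2 := by positivity
        linarith

end Pool.Agent.Results.MP_d0d59f_nt.AllModuli
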