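import Mathlib
import Pool.Agent.Q21.DW.Dy
import Pool.Agent.TH930.UD.Set

set_option autoImplicit false

/-! # The `3x+d` maps started at the digits and the multiples of a real number

For almost every real number `α`, every `δ ≤ 1` and every base `g` the `3x+d` orbits of ALL the numbers `n`
that are written by `k` consecutive digits of `α` after one of the first `g ^ (κ k)` places,
`κ < (1 - H) δ`, enter `[-n ^ δ, n ^ δ]`, for all odd `d` prime to `3`, if `k` is large in terms of `d`; and for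
all `d` with `|d| ≤ n ^ ρ` at once if `κ < (1 - H) δ - H ρ`.  Here `H = 0.94995...` is the binary entropy of
`log 2 / log 3` in bits.  With bounds for the Hausdorff dimension of the set of the exceptional `α`, and the
same for all integers near the multiples `α v_k`, outside of null sets of Hausdorff measures. -/

namespace Pool.Agent.Results.MP_d0d59f_nt.RandomStarts

/-- the `3x+d` map on the integers -/
def T (d x : ℤ) : ℤ := if x % 2 = 0 then x / 2 else (3 * x + d) / 2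

/-- the binary entropy of `log 2 / log 3` in bits, `0.94995...` -/
noncomputable def H : ℝ := Real.binEntropy (Real.log 2 / Real.log 3) / Real.log 2

/-- if `d` is odd and prime to `3`, the `3x+d` orbits of `n` and `- n` enter `[-n ^ δ, n ^ δ]` -/
def Descends (δ : ℝ) (d : ℤ) (n : ℕ) : Prop :=
  d % 2 = 1 → ¬ (3 : ℤ) ∣ d → ∀ x : ℤ, x.natAbs = n →
    ∃ k : ℕ, |(((T d)^[k] x : ℤ) : ℝ)| ≤ (n : ℝ) ^ δ

/-- the same for all `d` with `|d| ≤ n ^ ρ` -/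
def AllDescend (ρ δ : ℝ) (n : ℕ) : Prop := ∀ d : ℤ, |(d : ℝ)| ≤ (n : ℝ) ^ ρ → Descends δ d n

section

lemma fin_set (P : ℤ → Prop) (X : ℕ) : {x : ℤ | |(x : ℝ)| ≤ (X : ℝ) ∧ P x}.Finite := by
  refine (Set.finite_Icc (-(X : ℤ)) X).subset ?_
  rintro k ⟨hk, -⟩
  have h1 : |k| ≤ (X : ℤ) := by exact_mod_cast hk
  exact abs_le.1 h1

lemma abs_nat {k : ℤ} {n : ℕ} (h : k.natAbs = n) : |(k : ℝ)| = n := by
  rw [← h, Nat.cast_natAbs, Int.cast_abs]

lemma pow_half {N : ℕ} (hN : 1 ≤ N) {a b : ℝ} :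
    (N : ℝ) / ((((N : ℝ) / 2) ^ a) ^ b) = 2 ^ (a * b) * (N : ℝ) ^ (1 - a * b) := by
  have hN0 : (0 : ℝ) < N := by exact_mod_cast hN
  rw [← Real.rpow_mul (by positivity), Real.div_rpow hN0.le (by norm_num), Real.rpow_sub hN0,
    Real.rpow_one]
  field_simp

open Classical in
/-- the basic count: the exceptions in `(N / 2, N]` for the set `G` of values of `d` -/
lemma count {δ : ℝ} (hδ : 0 < δ) (G : Finset ℤ) (N : ℕ) (B : ℕ → Prop)
    (hB : ∀ n : ℕ, 1 ≤ n → n ≤ N → N < 2 * n → B n → ∃ d ∈ G, ¬ Descends δ d n) :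
    (({n : ℕ | 1 ≤ n ∧ n ≤ N ∧ N < 2 * n ∧ B n} : Set ℕ).ncard : ℝ) ≤
      ∑ d ∈ G, (({x : ℤ | |(x : ℝ)| ≤ (N : ℝ) ∧
        ∀ k : ℕ, ((N : ℝ) / 2) ^ δ < |(((T d)^[k] x : ℤ) : ℝ)|}.ncard : ℕ) : ℝ) := by
  set S : ℤ → Set ℤ := fun d => {x : ℤ | |(x : ℝ)| ≤ (N : ℝ) ∧
        ∀ k : ℕ, ((N : ℝ) / 2) ^ δ < |(((T d)^[k] x : ℤ) : ℝ)|} with hS
  have hf : ∀ d, (S d).Finite := fun d => fin_set _ N
  have hsub : ({n : ℕ | 1 ≤ n ∧ n ≤ N ∧ N < 2 * n ∧ B n} : Set ℕ) ⊆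
      (((G.biUnion fun d => (hf d).toFinset).image Int.natAbs : Finset ℕ) : Set ℕ) := by
    rintro n ⟨h1, h2, h3, h4⟩
    obtain ⟨d, hd, h5⟩ := hB n h1 h2 h3 h4
    unfold Descends at h5
    push Not at h5
    obtain ⟨-, -, x, hx, h6⟩ := h5
    rw [Finset.mem_coe, Finset.mem_image]
    refine ⟨x, Finset.mem_biUnion.2 ⟨d, hd, (hf d).mem_toFinset.2 ⟨?_, fun k => ?_⟩⟩, hx⟩
    · rw [abs_nat hx]
      exact_mod_cast h2
    · refine lt_of_le_of_lt (Real.rpow_le_rpow (by positivity) ?_ hδ.le) (h6 k)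
      have : (N : ℝ) < 2 * n := by exact_mod_cast h3
      linarith
  have h1 := Set.ncard_le_ncard hsub (Finset.finite_toSet _)
  rw [Set.ncard_coe_finset] at h1
  have h2 := h1.trans (Finset.card_image_le.trans Finset.card_biUnion_le)
  have h3 : (∑ d ∈ G, (hf d).toFinset.card) = ∑ d ∈ G, (S d).ncard :=
    Finset.sum_congr rfl fun d _ => (Set.ncard_eq_toFinset_card _ (hf d)).symm
  rw [h3] at h2
  have h4 : (({n : ℕ | 1 ≤ n ∧ n ≤ N ∧ N < 2 * n ∧ B n} : Set ℕ).ncard : ℝ) ≤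
      ((∑ d ∈ G, (S d).ncard : ℕ) : ℝ) := Nat.cast_le.2 h2
  rw [Nat.cast_sum] at h4
  exact h4

lemma H_nonneg : 0 ≤ H := by
  unfold H
  apply div_nonneg _ (Real.log_nonneg (by norm_num))
  apply Real.binEntropy_nonneg
  · exact div_nonneg (Real.log_nonneg (by norm_num)) (Real.log_nonneg (by norm_num))
  · rw [div_le_one (Real.log_pos (by norm_num))]
    exact Real.log_le_log (by norm_num) (by norm_num)

lemma H_lt : H < 1 := by
  unfold H
  rw [div_lt_one (Real.log_pos (by norm_num))]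
  refine Real.binEntropy_lt_log_two.2 ?_
  intro h
  have h3 : 0 < Real.log 3 := Real.log_pos (by norm_num)
  rw [div_eq_iff h3.ne'] at h
  have h4 : Real.log 4 = 2 * Real.log 2 := by
    rw [show (4 : ℝ) = 2 ^ 2 by norm_num, Real.log_pow]
    norm_num
  have h5 : Real.log 3 < Real.log 4 := Real.log_lt_log (by norm_num) (by norm_num)
  linarith

lemma ev_large {ρ δ : ℝ} (hδ : ρ < δ) :
    ∃ N₀ : ℕ, ∀ N : ℕ, N₀ ≤ N → 1 ≤ N → (N : ℝ) ^ ρ ≤ ((N : ℝ) / 2) ^ δ := by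
  have h1 : ∀ᶠ N : ℕ in Filter.atTop, (2 : ℝ) ^ δ * (N : ℝ) ^ ρ ≤ (N : ℝ) ^ δ :=
    tendsto_natCast_atTop_atTop.eventually (Pool.Agent.Q21.DW.eventually_mul_le hδ)
  obtain ⟨N₀, h2⟩ := Filter.eventually_atTop.1 h1
  refine ⟨N₀, fun N hN hN1 => ?_⟩
  have hN0 : (0 : ℝ) < N := by exact_mod_cast hN1
  rw [Real.div_rpow hN0.le (by norm_num), le_div_iff₀ (by positivity), mul_comm]
  exact h2 N hN

/-- power saving for a fixed `d` -/
lemma one {δ : ℝ} (hδ : 0 < δ) (hδ1 : δ ≤ 1) (d : ℤ) :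
    Pool.Agent.Q21.DW.PS (1 - (1 - H) * δ) (fun n => ¬ Descends δ d n) := by
  have hH0 := H_nonneg
  have hH1 := H_lt
  by_cases hd : d % 2 = 1 ∧ ¬ (3 : ℤ) ∣ d
  swap
  · refine Pool.Agent.Q21.DW.ps_false fun n hn => hn ?_
    intro h1 h2
    exact absurd ⟨h1, h2⟩ hd
  refine Pool.Agent.Q21.DW.ps_dyadic' (by nlinarith) fun t ht => ?_
  -- the exponent c
  set c : ℝ := max ((1 - H) / 2) (((1 - H) + (1 - t) / δ) / 2) with hc
  have hc0 : 0 < c := lt_of_lt_of_le (by linarith) (le_max_left _ _)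
  have h1 : (1 - t) / δ < 1 - H := by
    rw [div_lt_iff₀ hδ]
    linarith
  have hc1 : c < 1 - H := max_lt (by linarith) (by linarith)
  have h2 : (1 - t) / δ < c := lt_of_lt_of_le (by linarith) (le_max_right _ _)
  have h3 : 1 - δ * c ≤ t := by
    rw [div_lt_iff₀ hδ] at h2
    linarith
  obtain ⟨C, hC, h⟩ := Pool.Agent.TH930.UD.set_saving hc0 hc1 (show (0 : ℝ) < 1 by norm_num)
  set D : ℝ := max 1 |(d : ℝ)| with hD
  have hD1 : 1 ≤ D := le_max_left _ _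
  obtain ⟨N₁, hN₁⟩ := Filter.eventually_atTop.1 ((tendsto_natCast_atTop_atTop.eventually
    ((tendsto_rpow_atTop (show 0 < δ by exact hδ)).eventually_ge_atTop
      (2 ^ δ * D ^ (1 + (1 : ℝ))))) : ∀ᶠ N : ℕ in Filter.atTop, 2 ^ δ * D ^ (1 + (1 : ℝ)) ≤ (N : ℝ) ^ δ)
  refine ⟨C * 2 ^ (δ * c), N₁, fun N hN hN1 => ?_⟩
  have hN0 : (0 : ℝ) < N := by exact_mod_cast hN1
  have hN1' : (1 : ℝ) ≤ N := by exact_mod_cast hN1
  have hy : D ^ (1 + (1 : ℝ)) ≤ ((N : ℝ) / 2) ^ δ := by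
    rw [Real.div_rpow hN0.le (by norm_num), le_div_iff₀ (by positivity), mul_comm]
    exact hN₁ N hN
  have h5 := h D N (((N : ℝ) / 2) ^ δ) hD1 hN1' hy {d} (by
    intro d' hd'
    rw [Finset.mem_singleton] at hd'
    subst hd'
    exact ⟨Int.odd_iff.2 hd.1, hd.2, le_max_right _ _⟩)
  have h6 := count hδ {d} N (fun n => ¬ Descends δ d n)
    (fun n _ _ _ h7 => ⟨d, Finset.mem_singleton_self _, h7⟩)
  refine h6.trans (h5.trans ?_)
  rw [Finset.card_singleton, Nat.cast_one, pow_half hN1]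
  have h8 : min (1 : ℝ) (D ^ (1 - c)) ≤ 1 := min_le_left _ _
  calc C * (2 ^ (δ * c) * (N : ℝ) ^ (1 - δ * c)) * min (1 : ℝ) (D ^ (1 - c))
      ≤ C * (2 ^ (δ * c) * (N : ℝ) ^ (1 - δ * c)) * 1 :=
        mul_le_mul_of_nonneg_left h8 (by positivity)
    _ ≤ C * (2 ^ (δ * c) * (N : ℝ) ^ t) * 1 := by
        have := Real.rpow_le_rpow_of_exponent_le hN1' h3
        gcongr
    _ = _ := by ring

/-- power saving for all `d` up to a power of `n` -/
lemma all {ρ δ : ℝ} (hρ : 0 ≤ ρ) (hρδ : ρ < δ) (hδ1 : δ ≤ 1) (_hlt : H * ρ < (1 - H) * δ) :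
    Pool.Agent.Q21.DW.PS (1 - (1 - H) * δ + H * ρ) (fun n => ¬ AllDescend ρ δ n) := by
  have hH0 := H_nonneg
  have hH1 := H_lt
  have hδ : 0 < δ := lt_of_le_of_lt hρ hρδ
  refine Pool.Agent.Q21.DW.ps_dyadic' (by nlinarith) fun t ht => ?_
  -- 1 - δ c + ρ (1 - c) ≤ t  iff  (1 + ρ - t) / (δ + ρ) ≤ c
  have hs : 0 < δ + ρ := by linarith
  set q : ℝ := (1 + ρ - t) / (δ + ρ) with hq
  set c : ℝ := max ((1 - H) / 2) (((1 - H) + q) / 2) with hc
  have hc0 : 0 < c := lt_of_lt_of_le (by linarith) (le_max_left _ _)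
  have h1 : q < 1 - H := by
    rw [hq, div_lt_iff₀ hs]
    nlinarith
  have hc1 : c < 1 - H := max_lt (by linarith) (by linarith)
  have h2 : q < c := lt_of_lt_of_le (by linarith) (le_max_right _ _)
  have h3 : (1 - δ * c) + ρ * (1 - c) ≤ t := by
    rw [hq, div_lt_iff₀ hs] at h2
    nlinarith
  set ε : ℝ := (δ - ρ) / (2 * (ρ + 1)) with hε
  have hε0 : 0 < ε := div_pos (by linarith) (by linarith)
  have h4 : ρ * (1 + ε) < δ := by
    have h5 : ρ * ε ≤ (δ - ρ) / 2 := by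
      rw [hε]
      have : ρ * ((δ - ρ) / (2 * (ρ + 1))) = (ρ / (ρ + 1)) * ((δ - ρ) / 2) := by
        field_simp
      rw [this]
      have h6 : ρ / (ρ + 1) ≤ 1 := by
        rw [div_le_one (by linarith)]
        linarith
      have := mul_le_mul_of_nonneg_right h6 (show 0 ≤ (δ - ρ) / 2 by linarith)
      linarith
    linarith
  obtain ⟨C, hC, h⟩ := Pool.Agent.TH930.UD.set_saving hc0 hc1 hε0
  obtain ⟨N₀, hN₀⟩ := ev_large h4
  refine ⟨C * 2 ^ (δ * c), N₀, fun N hN hN1 => ?_⟩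
  have hN0 : (0 : ℝ) < N := by exact_mod_cast hN1
  have hN1' : (1 : ℝ) ≤ N := by exact_mod_cast hN1
  have hD1 : 1 ≤ (N : ℝ) ^ ρ := Real.one_le_rpow hN1' hρ
  have hy : ((N : ℝ) ^ ρ) ^ (1 + ε) ≤ ((N : ℝ) / 2) ^ δ := by
    rw [← Real.rpow_mul hN0.le]
    exact hN₀ N hN hN1
  classical
  set G : Finset ℤ := (Finset.Icc (-⌊(N : ℝ) ^ ρ⌋) ⌊(N : ℝ) ^ ρ⌋).filter
    (fun d => d % 2 = 1 ∧ ¬ (3 : ℤ) ∣ d ∧ |(d : ℝ)| ≤ (N : ℝ) ^ ρ) with hG
  have h5 := h ((N : ℝ) ^ ρ) N (((N : ℝ) / 2) ^ δ) hD1 hN1' hy G (by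
    intro d' hd'
    rw [hG, Finset.mem_filter] at hd'
    exact ⟨Int.odd_iff.2 hd'.2.1, hd'.2.2⟩)
  have h6 := count hδ G N (fun n => ¬ AllDescend ρ δ n) (fun n h1 h2 _ h7 => by
    unfold AllDescend at h7
    push Not at h7
    obtain ⟨d, hd1, hd2⟩ := h7
    have hd3 : |(d : ℝ)| ≤ (N : ℝ) ^ ρ :=
      hd1.trans (Real.rpow_le_rpow (Nat.cast_nonneg _) (by exact_mod_cast h2) hρ)
    refine ⟨d, ?_, hd2⟩
    have hd4 : d % 2 = 1 ∧ ¬ (3 : ℤ) ∣ d := by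
      by_contra hcon
      exact hd2 fun h1 h2 => absurd ⟨h1, h2⟩ hcon
    rw [hG, Finset.mem_filter, Finset.mem_Icc]
    have h8 := abs_le.1 hd3
    refine ⟨⟨?_, Int.le_floor.2 h8.2⟩, hd4.1, hd4.2, hd3⟩
    have h9 : -d ≤ ⌊(N : ℝ) ^ ρ⌋ := Int.le_floor.2 (by push_cast; linarith)
    linarith)
  refine h6.trans (h5.trans ?_)
  rw [pow_half hN1]
  have h8 : min (G.card : ℝ) (((N : ℝ) ^ ρ) ^ (1 - c)) ≤ (N : ℝ) ^ (ρ * (1 - c)) := by
    rw [Real.rpow_mul hN0.le]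
    exact min_le_right _ _
  calc C * (2 ^ (δ * c) * (N : ℝ) ^ (1 - δ * c)) * min (G.card : ℝ) (((N : ℝ) ^ ρ) ^ (1 - c))
      ≤ C * (2 ^ (δ * c) * (N : ℝ) ^ (1 - δ * c)) * (N : ℝ) ^ (ρ * (1 - c)) :=
        mul_le_mul_of_nonneg_left h8 (by positivity)
    _ = C * 2 ^ (δ * c) * ((N : ℝ) ^ (1 - δ * c) * (N : ℝ) ^ (ρ * (1 - c))) := by ring
    _ = C * 2 ^ (δ * c) * (N : ℝ) ^ ((1 - δ * c) + ρ * (1 - c)) := by rw [Real.rpow_add hN0]
    _ ≤ _ := by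
        have := Real.rpow_le_rpow_of_exponent_le hN1' h3
        gcongr

end

/-- **Theorem.** In the sense of `RandomReals s` (digits and dilates of almost all real numbers, with
Hausdorff dimensions), for `0 < δ ≤ 1`:
with `s = 1 - (1 - H) δ`, for all odd `d` prime to `3` the `3x+d` orbits of `n` and `- n` enter
`[-n ^ δ, n ^ δ]`;
with `s = 1 - (1 - H) δ + H ρ < 1`, `0 ≤ ρ < δ`, they do so for all `d` with `|d| ≤ n ^ ρ` simultaneously. -/
theorem result :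
    H < 1 ∧
    (∀ δ : ℝ, 0 < δ → δ ≤ 1 →
      Pool.Agent.Q21.DW.RandomReals (1 - (1 - H) * δ) (fun d : ℤ => Descends δ d)) ∧
    (∀ ρ δ : ℝ, 0 ≤ ρ → ρ < δ → δ ≤ 1 → H * ρ < (1 - H) * δ →
      Pool.Agent.Q21.DW.RandomReals (1 - (1 - H) * δ + H * ρ) (fun _ : Unit => AllDescend ρ δ)) := by
  have hH0 := H_nonneg
  have hH1 := H_lt
  refine ⟨hH1, fun δ hδ hδ1 => ?_, fun ρ δ hρ hρδ hδ1 hlt => ?_⟩
  · have : 0 < (1 - H) * δ := mul_pos (by linarith) hδ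
    exact Pool.Agent.Q21.DW.randomReals_of (B := fun d n => ¬ Descends δ d n) (by nlinarith)
      (by linarith) (fun d => one hδ hδ1 d) (fun d n _ h2 => not_not.1 h2)
  · exact Pool.Agent.Q21.DW.randomReals_of (B := fun _ n => ¬ AllDescend ρ δ n) (by nlinarith)
      (by linarith) (fun _ => all hρ hρδ hδ1 hlt) (fun _ n _ h2 => not_not.1 h2)

end Pool.Agent.Results.MP_d0d59f_nt.RandomStarts
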