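import Pool.Agent.Q319.DR.Win
import Pool.Agent.Q319.DR.Gen
import Pool.Agent.Results.MP_d0d59f_nt.UniformInD

/-!
# The `3x+d` maps: ALL orbits, for all `d` at once, which start near the multiples or the dilates of almost every real number

Let `c₀ > 0` be smaller than `1 - H(log 2 / log 3)`, `H` the binary entropy in bits.

1. Let `0 < θ < 1`. There are `c > 0` and `C` such that for all large `N`, all `D ≥ 1`, `Y > 0` and `0 ≤ w ≤ N ^ c` there is
   a set of measure at most `N ^ (1 - θ - c)` outside of which every real number `y` with `N ^ (1 - θ) ≤ y ≤ 2 N ^ (1 - θ)`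
   has the following property. For all but `C (w + 1) D ^ (1 + c₀) Y ^ (-c₀) N ^ θ + N ^ (θ - c)` of the `k ≤ N ^ θ` the
   `3x+d` orbits of ALL integers `x` with `||x| - k y| ≤ w`, for ALL odd `d` prime to `3` with `|d| ≤ D`, meet `[-Y, Y]`.
2. Let `v_k ≥ 1`, `0 ≤ w_k ≤ v_k`, `D_k ≥ 1` and `Y_k > 0` be real numbers such that the series
   `∑ w_k D_k ^ (1 + c₀) Y_k ^ (-c₀)` converges. For almost every `α > 0` and all large `k` the `3x+d` orbits of ALL integers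
   `x ≠ 0` with `||x| - α v_k| ≤ w_k`, for ALL odd `d` prime to `3` with `|d| ≤ D_k`, meet `[-Y_k, Y_k]`.

The bound for the number of the orbits without an element in `[-Y, Y]`, uniform in `d`, is from the starting file
`UniformInD` (with the definition of `T`); the count of the elements of arbitrary sets of integers in windows at multiples
of real numbers is from the starting files, too (`Pool.Agent.H438R2.DL`). From Mathlib: `volume`: the Lebesgue measure,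
`Real.binEntropy`: the entropy (natural logarithm), `^[n]`: iterates.
-/

set_option autoImplicit false

namespace Pool.Agent.Results.MP_d0d59f_nt.StartsAtRealMultiples

open Finset MeasureTheory Filter Pool.Agent.Results.MP_d0d59f_nt.UniformInD

/-- For some odd `d` prime to `3` with `|d| ≤ D` the `3x+d` orbit of `x` has no element in `[-Y, Y]`. -/
def Avoids (D Y : ℝ) (x : ℤ) : Prop :=
  ∃ d : ℤ, d % 2 = 1 ∧ ¬ (3 : ℤ) ∣ d ∧ |(d : ℝ)| ≤ D ∧ ∀ n : ℕ, Y < |(((T d)^[n] x : ℤ) : ℝ)|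

open Classical in
/-- The number of the `k` with `1 ≤ k ≤ K` such that for some integer `x` whose absolute value is at a distance of at most
`w` from `k y` and for some odd `d` prime to `3` with `|d| ≤ D` the `3x+d` orbit of `x` has no element in `[-Y, Y]`. -/
noncomputable def exceptions (K y w D Y : ℝ) : ℕ :=
  ((Icc 1 ⌊K⌋₊).filter (fun k : ℕ => ∃ x : ℤ, |(|(x : ℝ)|) - k * y| ≤ w ∧ Avoids D Y x)).card

lemma cnt (c : ℝ) (hc0 : 0 < c) (hc : c < 1 - Real.binEntropy (Real.log 2 / Real.log 3) / Real.log 2) :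
    ∃ C : ℝ, 0 < C ∧ ∀ D Y X : ℝ, 1 ≤ D → 0 < Y → 1 ≤ X → ∀ F : Finset ℤ,
      (∀ x ∈ F, |(x : ℝ)| ≤ X ∧ Avoids D Y x) → (F.card : ℝ) ≤ C * X * (D ^ (1 + c) * Y ^ (-c)) := by
  classical
  obtain ⟨C, hC, h⟩ := UniformInD.result c hc0 hc
  refine ⟨3 * C, by positivity, fun D Y X hD hY hX F hF => ?_⟩
  have hD0 : 0 < D := by linarith
  have h1 : F ⊆ (Icc (-⌊D⌋) ⌊D⌋).biUnion (fun d => F.filter (fun x => (d % 2 = 1 ∧ ¬ (3 : ℤ) ∣ d) ∧
      ∀ n : ℕ, Y < |(((T d)^[n] x : ℤ) : ℝ)|)) := by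
    intro x hx
    obtain ⟨-, d, hd1, hd2, hd3, hd4⟩ := hF x hx
    rw [mem_biUnion]
    refine ⟨d, ?_, mem_filter.2 ⟨hx, ⟨hd1, hd2⟩, hd4⟩⟩
    rw [mem_Icc]
    have h2 := abs_le.1 hd3
    constructor
    · rw [neg_le]
      apply Int.le_floor.2
      push_cast
      linarith
    · exact Int.le_floor.2 h2.2
  have h2 : ∀ d ∈ Icc (-⌊D⌋) ⌊D⌋, ((F.filter (fun x => (d % 2 = 1 ∧ ¬ (3 : ℤ) ∣ d) ∧
      ∀ n : ℕ, Y < |(((T d)^[n] x : ℤ) : ℝ)|)).card : ℝ) ≤ C * X * (D / Y) ^ c := by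
    intro d hd
    have hd0 : |(d : ℝ)| ≤ D := by
      rw [mem_Icc] at hd
      rw [abs_le]
      constructor
      · have h3 : -d ≤ ⌊D⌋ := by linarith [hd.1]
        have h4 := Int.le_floor.1 h3
        push_cast at h4
        linarith
      · exact Int.le_floor.1 hd.2
    by_cases hd1 : d % 2 = 1 ∧ ¬ (3 : ℤ) ∣ d
    · have h3 := h d hd1.1 hd1.2 X Y hX hY
      have h4 : (F.filter (fun x => (d % 2 = 1 ∧ ¬ (3 : ℤ) ∣ d) ∧
          ∀ n : ℕ, Y < |(((T d)^[n] x : ℤ) : ℝ)|)).card ≤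
          {x : ℤ | |(x : ℝ)| ≤ X ∧ ∀ n : ℕ, Y < |(((T d)^[n] x : ℤ) : ℝ)|}.ncard := by
        rw [← Set.ncard_coe_finset]
        apply Set.ncard_le_ncard
        · intro x hx
          rw [mem_coe, mem_filter] at hx
          exact ⟨(hF x hx.1).1, hx.2.2⟩
        · refine (Set.finite_Icc (-⌈X⌉) ⌈X⌉).subset fun x hx => ?_
          have h5 := abs_le.1 hx.1
          have h6 := Int.le_ceil X
          rw [Set.mem_Icc]
          constructor
          · have : ((-⌈X⌉ : ℤ) : ℝ) ≤ x := by push_cast; linarith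
            exact_mod_cast this
          · have : (x : ℝ) ≤ ((⌈X⌉ : ℤ) : ℝ) := by linarith
            exact_mod_cast this
      refine (Nat.cast_le.2 h4).trans (h3.trans ?_)
      gcongr
    · have : F.filter (fun x => (d % 2 = 1 ∧ ¬ (3 : ℤ) ∣ d) ∧ ∀ n : ℕ, Y < |(((T d)^[n] x : ℤ) : ℝ)|) = ∅ := by
        rw [filter_eq_empty_iff]
        intro x _ hx
        exact hd1 hx.1
      rw [this]
      have h3 : 0 < D / Y := by positivity
      have h4 : 0 ≤ (D / Y) ^ c := by positivity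
      simp only [card_empty, Nat.cast_zero]
      positivity
  have h3 : ((Icc (-⌊D⌋) ⌊D⌋).card : ℝ) ≤ 3 * D := by
    have h4 : (0 : ℤ) ≤ ⌊D⌋ := Int.floor_nonneg.2 hD0.le
    have h5 := Int.floor_le D
    rw [Int.card_Icc]
    have h6 : (((⌊D⌋ + 1 - -⌊D⌋).toNat : ℤ) : ℝ) = 2 * (⌊D⌋ : ℝ) + 1 := by
      rw [Int.toNat_of_nonneg (by omega)]
      push_cast
      ring
    have h7 : (((⌊D⌋ + 1 - -⌊D⌋).toNat : ℕ) : ℝ) = 2 * (⌊D⌋ : ℝ) + 1 := by
      rw [← h6]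
      norm_cast
    rw [h7]
    linarith
  have h4 : 0 ≤ C * X * (D / Y) ^ c := by
    have : 0 ≤ (D / Y) ^ c := by positivity
    positivity
  calc (F.card : ℝ) ≤ (((Icc (-⌊D⌋) ⌊D⌋).biUnion (fun d => F.filter (fun x => (d % 2 = 1 ∧ ¬ (3 : ℤ) ∣ d) ∧
      ∀ n : ℕ, Y < |(((T d)^[n] x : ℤ) : ℝ)|))).card : ℝ) := by exact_mod_cast card_le_card h1
    _ ≤ ∑ d ∈ Icc (-⌊D⌋) ⌊D⌋, ((F.filter (fun x => (d % 2 = 1 ∧ ¬ (3 : ℤ) ∣ d) ∧
      ∀ n : ℕ, Y < |(((T d)^[n] x : ℤ) : ℝ)|)).card : ℝ) := by exact_mod_cast card_biUnion_le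
    _ ≤ ∑ d ∈ Icc (-⌊D⌋) ⌊D⌋, C * X * (D / Y) ^ c := sum_le_sum h2
    _ = ((Icc (-⌊D⌋) ⌊D⌋).card : ℝ) * (C * X * (D / Y) ^ c) := by rw [sum_const, nsmul_eq_mul]
    _ ≤ 3 * D * (C * X * (D / Y) ^ c) := mul_le_mul_of_nonneg_right h3 h4
    _ = 3 * C * X * (D ^ (1 + c) * Y ^ (-c)) := by
      rw [Real.div_rpow hD0.le hY.le, Real.rpow_add hD0, Real.rpow_one, Real.rpow_neg hY.le]
      ring

/-- Let `0 < c₀ < 1 - H(log 2 / log 3)`, `H` the binary entropy in bits.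
* Let `0 < θ < 1`. There are `c > 0` and `C` such that for all large `N`, all `D ≥ 1`, `Y > 0` and `0 ≤ w ≤ N ^ c` there is
  a set `E` of measure at most `N ^ (1 - θ - c)` such that for every real number `y` with
  `N ^ (1 - θ) ≤ y ≤ 2 N ^ (1 - θ)` which is not in `E`, for all but
  `C (w + 1) D ^ (1 + c₀) Y ^ (-c₀) N ^ θ + N ^ (θ - c)` of the `k ≤ N ^ θ`, the `3x+d` orbits of ALL integers `x` with
  `||x| - k y| ≤ w`, for ALL odd `d` prime to `3` with `|d| ≤ D`, meet `[-Y, Y]`.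
* Let `v k ≥ 1`, `0 ≤ w k ≤ v k`, `D k ≥ 1` and `Y k > 0` be real numbers such that
  `∑ w k (D k) ^ (1 + c₀) (Y k) ^ (-c₀)` converges. For almost every `α > 0` and all large `k` the `3x+d` orbits of ALL
  integers `x ≠ 0` with `||x| - α v k| ≤ w k`, for ALL odd `d` prime to `3` with `|d| ≤ D k`, meet `[-Y k, Y k]`. -/
theorem result (c₀ : ℝ) (hc0 : 0 < c₀)
    (hc : c₀ < 1 - Real.binEntropy (Real.log 2 / Real.log 3) / Real.log 2) :
    (∀ θ : ℝ, 0 < θ → θ < 1 → ∃ c : ℝ, 0 < c ∧ ∃ C : ℝ, ∃ N₀ : ℕ, ∀ N : ℕ, N₀ ≤ N →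
      ∀ D Y w : ℝ, 1 ≤ D → 0 < Y → 0 ≤ w → w ≤ (N : ℝ) ^ c →
        ∃ E : Set ℝ, MeasurableSet E ∧ volume E ≤ ENNReal.ofReal ((N : ℝ) ^ (1 - θ - c)) ∧
          ∀ y : ℝ, (N : ℝ) ^ (1 - θ) ≤ y → y ≤ 2 * (N : ℝ) ^ (1 - θ) → y ∉ E →
            (exceptions ((N : ℝ) ^ θ) y w D Y : ℝ) ≤
              C * (w + 1) * D ^ (1 + c₀) * Y ^ (-c₀) * (N : ℝ) ^ θ + (N : ℝ) ^ (θ - c)) ∧
    (∀ v w D Y : ℕ → ℝ, (∀ k, 1 ≤ v k) → (∀ k, 0 ≤ w k ∧ w k ≤ v k) → (∀ k, 1 ≤ D k) → (∀ k, 0 < Y k) →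
      Summable (fun k => w k * D k ^ (1 + c₀) * Y k ^ (-c₀)) →
      ∀ᵐ α : ℝ, 0 < α → ∀ᶠ k : ℕ in atTop, ∀ x : ℤ, x ≠ 0 → |(|(x : ℝ)|) - α * v k| ≤ w k →
        ∀ d : ℤ, d % 2 = 1 → ¬ (3 : ℤ) ∣ d → |(d : ℝ)| ≤ D k →
          ∃ n : ℕ, |(((T d)^[n] x : ℤ) : ℝ)| ≤ Y k) := by
  classical
  obtain ⟨C₀, hC₀, hcnt⟩ := cnt c₀ hc0 hc
  refine ⟨fun θ hθ hθ1 => ?_, fun v w D Y hv hw hD hY hsum => ?_⟩
  · obtain ⟨c, hc1, hc2, N₁, h1⟩ := Pool.Agent.Q319.DR.mult_gen θ hθ hθ1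
    refine ⟨c, hc1, 20 * C₀, N₁ + 4, fun N hN D Y w hD hY hw0 hw => ?_⟩
    have hN4 : (4 : ℝ) ≤ N := by exact_mod_cast (by omega : 4 ≤ N)
    have hN0 : (0 : ℝ) < N := by linarith
    have hN1 : (1 : ℝ) ≤ N := by linarith
    have hD0 : 0 < D := by linarith
    obtain ⟨Bd, hBd⟩ : ∃ Bd : Finset ℕ, Bd = (range (4 * N + 1)).filter
        (fun n : ℕ => ∃ x : ℤ, |(x : ℝ)| = n ∧ Avoids D Y x) := ⟨_, rfl⟩
    have hcard : (Bd.card : ℝ) ≤ C₀ * (4 * N) * (D ^ (1 + c₀) * Y ^ (-c₀)) := by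
      refine Pool.Agent.Q319.DR.nat_of_int (Avoids D Y) _ Bd (fun n hn => ?_) fun F hF => ?_
      · rw [hBd, mem_filter] at hn
        exact hn.2
      · refine hcnt D Y (4 * N) hD hY (by linarith) F fun x hx => ?_
        obtain ⟨h3, h4⟩ := hF x hx
        refine ⟨?_, h3⟩
        rw [mem_image] at h4
        obtain ⟨n, hn, h5⟩ := h4
        rw [hBd, mem_filter, mem_range] at hn
        have h6 : n ≤ 4 * N := by omega
        have h7 : |(x : ℝ)| = n := by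
          have : ((|x| : ℤ) : ℝ) = ((n : ℤ) : ℝ) := by rw [h5]
          push_cast at this
          exact this
        rw [h7]
        exact_mod_cast h6
    obtain ⟨E, hE1, hE2, hE3⟩ := h1 N (by omega) Bd w hw0 hw
    refine ⟨E, hE1, hE2, fun y hy1 hy2 hyE => ?_⟩
    have hy0 : 0 ≤ y := le_trans (by positivity) hy1
    have hwN : w ≤ N := by
      refine hw.trans ?_
      nth_rewrite 2 [← Real.rpow_one (N : ℝ)]
      apply Real.rpow_le_rpow_of_exponent_le hN1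
      linarith
    have h2 : exceptions ((N : ℝ) ^ θ) y w D Y ≤
        ((Icc 1 ⌊(N : ℝ) ^ θ⌋₊).filter (fun k : ℕ => ∃ q ∈ Bd, |(q : ℝ) - k * y| ≤ w)).card := by
      unfold exceptions
      apply card_le_card
      intro k hk
      rw [mem_filter] at hk ⊢
      obtain ⟨hk1, x, hx1, hx2⟩ := hk
      have hk2 : (k : ℝ) ≤ (N : ℝ) ^ θ := (Nat.le_floor_iff (by positivity)).1 (mem_Icc.1 hk1).2
      have hky : (k : ℝ) * y ≤ 2 * N := by
        calc (k : ℝ) * y ≤ (N : ℝ) ^ θ * (2 * (N : ℝ) ^ (1 - θ)) := by gcongr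
          _ = 2 * ((N : ℝ) ^ θ * (N : ℝ) ^ (1 - θ)) := by ring
          _ = 2 * N := by
            rw [← Real.rpow_add hN0]
            norm_num
      have hxa : |(x : ℝ)| ≤ 4 * N := by
        have := (abs_le.1 hx1).2
        linarith
      have hna : ((x.natAbs : ℕ) : ℝ) = |(x : ℝ)| := by rw [Nat.cast_natAbs, Int.cast_abs]
      refine ⟨hk1, x.natAbs, ?_, ?_⟩
      · rw [hBd, mem_filter, mem_range]
        refine ⟨?_, x, hna.symm, hx2⟩
        have h5 : ((x.natAbs : ℕ) : ℝ) ≤ ((4 * N : ℕ) : ℝ) := by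
          rw [hna]
          push_cast
          exact hxa
        have h6 : x.natAbs ≤ 4 * N := by exact_mod_cast h5
        omega
      · rw [hna]
        exact hx1
    calc (exceptions ((N : ℝ) ^ θ) y w D Y : ℝ)
        ≤ 5 * (w + 1) * (Bd.card / N) * (N : ℝ) ^ θ + (N : ℝ) ^ (θ - c) :=
          (Nat.cast_le.2 h2).trans (hE3 y hy1 hy2 hyE)
      _ ≤ 5 * (w + 1) * (C₀ * (4 * N) * (D ^ (1 + c₀) * Y ^ (-c₀)) / N) * (N : ℝ) ^ θ + (N : ℝ) ^ (θ - c) := by
          gcongr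
      _ = _ := by
          field_simp
          ring
  · have h := Pool.Agent.Q319.DR.bc_all (fun k n => ∃ x : ℤ, |(x : ℝ)| = n ∧ Avoids (D k) (Y k) x) v w
      (fun k => by have := hv k; linarith) hw (fun D' => by
        have hnn : ∀ k, 0 ≤ w k * D k ^ (1 + c₀) * Y k ^ (-c₀) := by
          intro k
          have h1 := (hw k).1
          have h2 := hD k
          have h3 := hY k
          have h4 : 0 < D k := by linarith
          positivity
        have hD'0 : (0 : ℝ) ≤ D' := Nat.cast_nonneg _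
        refine ⟨fun k => (C₀ * ((D' : ℝ) + 1) * 2) * (w k * D k ^ (1 + c₀) * Y k ^ (-c₀)),
          hsum.mul_left _, fun k => mul_nonneg (by positivity) (hnn k), fun k F hF hFb => ?_⟩
        have h1 := hv k
        have h2 := (hw k).1
        have h4 : 0 < v k := by linarith
        have h6 : 1 ≤ ((D' : ℝ) + 1) * v k := by nlinarith
        have h7 : (F.card : ℝ) ≤ C₀ * (((D' : ℝ) + 1) * v k) * (D k ^ (1 + c₀) * Y k ^ (-c₀)) := by
          refine Pool.Agent.Q319.DR.nat_of_int (Avoids (D k) (Y k)) _ F hFb fun G hG => ?_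
          refine hcnt (D k) (Y k) _ (hD k) (hY k) h6 G fun x hx => ?_
          obtain ⟨h3, h8⟩ := hG x hx
          refine ⟨?_, h3⟩
          rw [mem_image] at h8
          obtain ⟨n, hn, h9⟩ := h8
          have h10 := (mem_Icc.1 (hF hn)).2
          have h11 : |(x : ℝ)| = n := by
            have : ((|x| : ℤ) : ℝ) = ((n : ℤ) : ℝ) := by rw [h9]
            push_cast at this
            exact this
          rw [h11]
          exact (Nat.le_floor_iff (by positivity)).1 h10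
        calc (F.card : ℝ) * (2 * w k / v k)
            ≤ (C₀ * (((D' : ℝ) + 1) * v k) * (D k ^ (1 + c₀) * Y k ^ (-c₀))) * (2 * w k / v k) :=
              mul_le_mul_of_nonneg_right h7 (by positivity)
          _ = _ := by
              field_simp)
    filter_upwards [h] with α hα hα0
    filter_upwards [hα hα0] with k hk x hx0 hx d hd1 hd2 hd3
    by_contra hcon
    push Not at hcon
    refine hk x.natAbs (Int.natAbs_pos.2 hx0) ?_ ⟨x, ?_, d, hd1, hd2, hd3, hcon⟩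
    · rw [Nat.cast_natAbs, Int.cast_abs]
      exact hx
    · rw [Nat.cast_natAbs, Int.cast_abs]

end Pool.Agent.Results.MP_d0d59f_nt.StartsAtRealMultiples
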