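import Pool.Agent.Q49.WA.Outer
import Pool.Agent.Results.MP_d0d59f_nt.UniformInD

set_option autoImplicit false

/-!
# Waring's problem with one summand whose `3x+d` orbit reaches a small interval, uniformly in `d`

For `d` odd and prime to `3` let `x` be captured by `y` if the orbit of `x` under the `3x+d` map has an element in
`[-y, y]`. Let there be given families of integers of size at most `N`, at least `2 t` of which have a `t`-th
additive energy bounded by a constant times that of a random family; for example the values of given nonconstant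
polynomials at the first few integers. For EVERY integer `n` of size `O(N)` at most `C (|d| / y) ^ c` times all
choices lead to an integer `x = n - (sum of the members) > 0` such that `x` (or `-x`) is not captured by `y`;
`C` does not depend on `d`, `N`, `n`, `y`, and `c` is any number below `1 - H(log 2 / log 3) = 0.05004...`. So for
every nonconstant integer polynomial `P` (for example `X ^ K`), `r ≥ r₀ (P)` and `ε > 0` there is `A` such that, for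
ALL odd `d` prime to `3` and ALL large `n`, for all but at most `ε` times all the tuples of positive integers `m j`
with `x = n - ∑ P (m j) > 0`, the orbit of `x` under the `3x+d` map meets the finite set `F_d = [-A |d|, A |d|]`.
Every large integer, large in terms of `K` only, is the sum of `r(K)` positive `K`-th powers and of an `x > 0` whose
orbit meets `F_d`.
-/

namespace Pool.Agent.Results.MP_d0d59f_nt.WaringUniformInD

open Filter Topology
open Pool.Agent.Results.MP_d0d59f_nt.UniformInD (T)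
open Pool.Agent.Results.MP_d02c56_nt.WaringProblem (Spread vals poly_spread)

/-- the orbit of `x` under the `3x+d` map has an element in `[-y, y]` -/
def Captured (d : ℤ) (y : ℝ) (x : ℤ) : Prop := ∃ k : ℕ, |(((T d)^[k] x : ℤ) : ℝ)| ≤ y

/-- The number of the choices `v` of one member `a j (v j)` of each family such that the difference
`x` of `n` and the sum of these members is positive and has the property `Q`. -/
noncomputable def reps (Q : ℤ → Prop) (n : ℤ) {r : ℕ} {L : Fin r → ℕ} (a : ∀ j, Fin (L j) → ℤ) : ℕ :=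
  {v : ∀ j, Fin (L j) | 0 < n - ∑ j, a j (v j) ∧ Q (n - ∑ j, a j (v j))}.ncard

/-- The number of the `r`-tuples of positive integers `m j` with `|P (m j)| ≤ n` for which the
difference `x` of `n` and the sum of the `P (m j)` is positive and has the property `Q`. -/
noncomputable def polyReps (Q : ℤ → Prop) (n : ℕ) (P : Polynomial ℤ) (r : ℕ) : ℕ :=
  {m : Fin r → ℕ | (∀ j, 1 ≤ m j ∧ |P.eval (m j : ℤ)| ≤ n) ∧ 0 < (n : ℤ) - ∑ j, P.eval (m j : ℤ) ∧
    Q ((n : ℤ) - ∑ j, P.eval (m j : ℤ))}.ncard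

/-- `1 - H(log 2 / log 3) = 0.05004...`, with the binary entropy `H` in bits -/
noncomputable def c₀ : ℝ := 1 - Real.binEntropy (Real.log 2 / Real.log 3) / Real.log 2

open Pool.Agent.Q49.WA (repsQ polyRepsQ)

theorem reps_eq (Q : ℤ → Prop) (n : ℤ) {r : ℕ} {L : Fin r → ℕ} (a : ∀ j, Fin (L j) → ℤ) : reps Q n a = repsQ Q n a := rfl

theorem polyReps_eq (Q : ℤ → Prop) (n : ℕ) (P : Polynomial ℤ) (r : ℕ) : polyReps Q n P r = polyRepsQ Q n P r := rfl

open scoped Classical in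
/-- the number of the integers which are not captured -/
theorem card_le {c : ℝ} (hc0 : 0 < c) (hc : c < c₀) : ∃ C : ℝ, 0 < C ∧ ∀ d : ℤ, d % 2 = 1 → ¬ (3 : ℤ) ∣ d →
    ∀ s : ℤ, (s = 1 ∨ s = -1) → ∀ M : ℕ, 1 ≤ M → ∀ y : ℝ, 0 < y →
    ((((Finset.Icc 1 M).filter (fun n : ℕ => ¬ Captured d y (s * (n : ℤ)))).card : ℕ) : ℝ) ≤ C * M * (|(d : ℝ)| / y) ^ c := by
  obtain ⟨C, hC, h⟩ := Pool.Agent.Results.MP_d0d59f_nt.UniformInD.result c hc0 hc
  refine ⟨C, hC, fun d hd hd3 s hs M hM y hy => ?_⟩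
  have h1 := h d hd hd3 M y (by exact_mod_cast hM) hy
  refine le_trans ?_ h1
  have hinj : Function.Injective (fun n : ℕ => s * (n : ℤ)) := by
    intro a b hab
    rcases hs with rfl | rfl
    · simpa using hab
    · simpa using hab
  rw [← Finset.card_image_of_injective _ hinj, ← Set.ncard_coe_finset]
  have hfin : {x : ℤ | |(x : ℝ)| ≤ M ∧ ∀ n : ℕ, y < |(((T d)^[n] x : ℤ) : ℝ)|}.Finite := by
    apply (Set.finite_Icc (-(M : ℤ)) M).subset
    rintro x ⟨hx, _⟩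
    rw [abs_le] at hx
    rw [Set.mem_Icc]
    exact ⟨by exact_mod_cast hx.1, by exact_mod_cast hx.2⟩
  have h2 := Set.ncard_le_ncard (s := (((Finset.Icc 1 M).filter (fun n : ℕ => ¬ Captured d y (s * (n : ℤ)))).image
    (fun n : ℕ => s * (n : ℤ)) : Finset ℤ)) (t := {x : ℤ | |(x : ℝ)| ≤ M ∧ ∀ n : ℕ, y < |(((T d)^[n] x : ℤ) : ℝ)|}) (by
    intro x hx
    rw [Finset.coe_image] at hx
    obtain ⟨n, hn, rfl⟩ := hx
    rw [Finset.mem_coe, Finset.mem_filter, Finset.mem_Icc] at hn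
    obtain ⟨⟨hn1, hn2⟩, hn3⟩ := hn
    refine ⟨?_, fun k => ?_⟩
    · have e : |((s * (n : ℤ) : ℤ) : ℝ)| = n := by
        push_cast
        rw [abs_mul]
        rcases hs with rfl | rfl <;> simp
      show |((s * (n : ℤ) : ℤ) : ℝ)| ≤ M
      rw [e]; exact_mod_cast hn2
    · by_contra hcon
      exact hn3 ⟨k, not_lt.1 hcon⟩) hfin
  exact_mod_cast h2

/-- the general bound -/
theorem general {c : ℝ} (hc0 : 0 < c) (hc : c < c₀) (r t B : ℕ) (ht : 1 ≤ t) (K : ℝ) : ∃ C : ℝ, 0 < C ∧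
    ∀ d : ℤ, d % 2 = 1 → ¬ (3 : ℤ) ∣ d → ∀ s : ℤ, (s = 1 ∨ s = -1) → ∀ y : ℝ, 0 < y → ∀ N : ℕ, 1 ≤ N →
    ∀ (L : Fin r → ℕ) (a : ∀ j, Fin (L j) → ℤ), (∀ j i, |a j i| ≤ N) →
    ∀ J : Finset (Fin r), 2 * t ≤ J.card → (∀ j ∈ J, Spread t K N (a j)) → ∀ n : ℤ, |n| ≤ B * N →
      (reps (fun x => ¬ Captured d y (s * x)) n a : ℝ) ≤ C * (|(d : ℝ)| / y) ^ c * ∏ j, (L j : ℝ) := by
  classical
  obtain ⟨C1, hC1, h1⟩ := card_le hc0 hc
  obtain ⟨C2, hC2, W, hW, h2⟩ := Pool.Agent.Q49.WA.few (r := r) (t := t) (B := B) ht (le_max_right K 0)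
  have hWR : (0 : ℝ) < W := by exact_mod_cast hW
  refine ⟨C1 * W * C2, by positivity, fun d hd hd3 s hs y hy N hN L a ha J hJ hsp n hn => ?_⟩
  have hE := h1 d hd hd3 s hs (W * N) (Nat.mul_pos hW hN) y hy
  rw [reps_eq]
  have h3 := h2 N hN (fun x => ¬ Captured d y (s * x)) (C1 * W * (|(d : ℝ)| / y) ^ c) (by
    refine le_trans (le_of_eq ?_) (hE.trans (le_of_eq ?_))
    · congr!
    · push_cast; ring) L a ha J hJ (fun j hj => by
      have h4 := hsp j hj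
      unfold Spread at h4 ⊢
      refine le_trans h4 ?_
      apply div_le_div_of_nonneg_right _ (Nat.cast_nonneg _)
      exact mul_le_mul_of_nonneg_right (le_max_left _ _) (by positivity)) n hn
  refine h3.trans (le_of_eq ?_)
  ring

/-- polynomials: all tuples -/
theorem poly_bound {c : ℝ} (hc0 : 0 < c) (hc : c < c₀) {P : Polynomial ℤ} (hP : 1 ≤ P.natDegree) : ∃ r₀ : ℕ, 1 ≤ r₀ ∧
    ∀ r : ℕ, r₀ ≤ r → ∃ C : ℝ, 0 < C ∧ ∀ d : ℤ, d % 2 = 1 → ¬ (3 : ℤ) ∣ d → ∀ s : ℤ, (s = 1 ∨ s = -1) →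
    ∀ y : ℝ, 0 < y → ∀ n : ℕ, 1 ≤ n →
      (polyReps (fun x => ¬ Captured d y (s * x)) n P r : ℝ) ≤
        C * (|(d : ℝ)| / y) ^ c * (n : ℝ) ^ ((r : ℝ) / P.natDegree) := by
  classical
  obtain ⟨t₀, K, hK, hsp⟩ := poly_spread P hP
  refine ⟨2 * (t₀ + 1), by omega, fun r hr => ?_⟩
  obtain ⟨B, hB, D, hD, hout⟩ := Pool.Agent.Q49.WA.outer hP r
  obtain ⟨C, hC, h⟩ := general hc0 hc r (t₀ + 1) 1 (by omega) (K * B)
  refine ⟨C * D, by positivity, fun d hd hd3 s hs y hy n hn => ?_⟩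
  obtain ⟨L, N, hnN, hNB, hNL, hval, hLr, hQ⟩ := hout n hn
  have h1 := h d hd hd3 s hs y hy N (by omega) (fun _ => L) (fun _ => vals P L) (fun j i =>
    hval ((i : ℕ) + 1) (Nat.le_add_left 1 _) i.2) Finset.univ (by rw [Finset.card_univ, Fintype.card_fin]; exact hr)
    (fun j _ => hsp (t₀ + 1) (by omega) B L N (by omega) hNL) (n : ℤ) (by
      rw [abs_of_nonneg (Nat.cast_nonneg _)]
      push_cast
      rw [one_mul]
      exact_mod_cast hnN)
  simp only [Finset.prod_const, Finset.card_univ, Fintype.card_fin] at h1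
  have h2 : (polyReps (fun x => ¬ Captured d y (s * x)) n P r : ℝ) ≤
      reps (fun x => ¬ Captured d y (s * x)) (n : ℤ) (fun _ : Fin r => vals P L) := by
    exact_mod_cast hQ (fun x => ¬ Captured d y (s * x))
  refine h2.trans (h1.trans ?_)
  have hy0 : 0 ≤ C * (|(d : ℝ)| / y) ^ c := by positivity
  calc C * (|(d : ℝ)| / y) ^ c * (L : ℝ) ^ r ≤ C * (|(d : ℝ)| / y) ^ c * (D * (n : ℝ) ^ ((r : ℝ) / P.natDegree)) :=
        mul_le_mul_of_nonneg_left hLr hy0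
    _ = _ := by ring

/-- the number of all tuples -/
theorem all_bound {P : Polynomial ℤ} (hP : 1 ≤ P.natDegree) {r : ℕ} (hr : 1 ≤ r) : ∃ κ : ℝ, 0 < κ ∧ ∃ n₀ : ℕ, ∀ n : ℕ, n₀ ≤ n →
    κ * (n : ℝ) ^ ((r : ℝ) / P.natDegree) ≤ polyReps (fun _ => True) n P r := by
  classical
  obtain ⟨B, hB1, hbox⟩ := Pool.Agent.Q49.WA.boxes hP hr
  have hBR : (0 : ℝ) < B := by exact_mod_cast hB1
  refine ⟨1 * (1 / (B : ℝ)) ^ ((r : ℝ) / P.natDegree), by positivity, B, fun n hn => ?_⟩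
  obtain ⟨L, hL1, hL3, hval, hpos, hfin⟩ := hbox n hn
  refine hfin (fun _ => True) 1 zero_le_one ?_
  have hall : (repsQ (fun _ => True) (n : ℤ) (fun _ : Fin r => vals P L) : ℝ) = (L : ℝ) ^ r := by
    unfold repsQ
    have : {v : ∀ _j : Fin r, Fin L | 0 < (n : ℤ) - ∑ j, vals P L (v j) ∧ True} = Set.univ := by
      ext v
      simp only [Set.mem_ofPred_eq, Set.mem_univ, and_true, iff_true]
      exact hpos v
    rw [this, Set.ncard_univ, Nat.card_eq_fintype_card, Fintype.card_fun, Fintype.card_fin, Fintype.card_fin]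
    push_cast
    rfl
  rw [hall, one_mul]

/-- almost all tuples, uniformly in `d` -/
theorem most {P : Polynomial ℤ} (hP : 1 ≤ P.natDegree) : ∃ r₀ : ℕ, 1 ≤ r₀ ∧ ∀ r : ℕ, r₀ ≤ r → ∃ n₀ : ℕ,
    ∀ ε : ℝ, 0 < ε → ∃ A : ℝ, 0 < A ∧ ∀ d : ℤ, d % 2 = 1 → ¬ (3 : ℤ) ∣ d → ∀ s : ℤ, (s = 1 ∨ s = -1) → ∀ n : ℕ, n₀ ≤ n →
      (polyReps (fun x => ¬ Captured d (A * |(d : ℝ)|) (s * x)) n P r : ℝ) ≤ ε * polyReps (fun _ => True) n P r := by
  have hc : 0 < c₀ := by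
    have h1 : Pool.Agent.H319R2.beta < 1 := Pool.Agent.H319R2.beta_lt.trans (by norm_num)
    unfold c₀
    unfold Pool.Agent.H319R2.beta at h1
    linarith
  obtain ⟨r₀, hr₀, h⟩ := poly_bound (c := c₀ / 2) (by positivity) (by linarith) hP
  refine ⟨r₀, hr₀, fun r hr => ?_⟩
  obtain ⟨C, hC, h1⟩ := h r hr
  obtain ⟨κ, hκ, n₀, h2⟩ := all_bound hP (r := r) (by omega)
  refine ⟨n₀ + 1, fun ε hε => ?_⟩
  -- choose A
  set A : ℝ := (C / (ε * κ)) ^ (1 / (c₀ / 2)) with hA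
  have hA0 : 0 < A := by rw [hA]; positivity
  refine ⟨A, hA0, fun d hd hd3 s hs n hn => ?_⟩
  have hd0 : (0 : ℝ) < |(d : ℝ)| := by
    rw [abs_pos]
    intro h0
    have : d = 0 := by exact_mod_cast h0
    omega
  have h3 := h1 d hd hd3 s hs (A * |(d : ℝ)|) (by positivity) n (by omega)
  have e1 : |(d : ℝ)| / (A * |(d : ℝ)|) = A⁻¹ := by field_simp
  have e2 : (A⁻¹ : ℝ) ^ (c₀ / 2) = ε * κ / C := by
    rw [hA, ← Real.rpow_neg_one, ← Real.rpow_mul (by positivity), ← Real.rpow_mul (by positivity)]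
    have : 1 / (c₀ / 2) * (-1 * (c₀ / 2)) = -1 := by field_simp
    have e3 : 1 / (c₀ / 2) * -1 * (c₀ / 2) = -1 := by field_simp
    first
      | rw [e3, Real.rpow_neg_one, inv_div]
      | rw [this, Real.rpow_neg_one, inv_div]
  rw [e1, e2] at h3
  have h4 := h2 n (by omega)
  calc _ ≤ C * (ε * κ / C) * (n : ℝ) ^ ((r : ℝ) / P.natDegree) := h3
    _ = ε * (κ * (n : ℝ) ^ ((r : ℝ) / P.natDegree)) := by field_simp
    _ ≤ _ := mul_le_mul_of_nonneg_left h4 hε.le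

/-- every large integer -/
theorem powers {K : ℕ} (hK : 1 ≤ K) : ∃ r : ℕ, 1 ≤ r ∧ ∃ A : ℝ, 0 < A ∧ ∃ n₀ : ℕ, ∀ d : ℤ, d % 2 = 1 → ¬ (3 : ℤ) ∣ d →
    ∀ s : ℤ, (s = 1 ∨ s = -1) → ∀ n : ℕ, n₀ ≤ n → ∃ x : ℤ, 0 < x ∧ Captured d (A * |(d : ℝ)|) (s * x) ∧
      ∃ m : Fin r → ℕ, (∀ j, 1 ≤ m j) ∧ (n : ℤ) = x + ∑ j, (m j : ℤ) ^ K := by
  have hdeg : (Polynomial.X ^ K : Polynomial ℤ).natDegree = K := Polynomial.natDegree_X_pow K
  have hP1 : 1 ≤ (Polynomial.X ^ K : Polynomial ℤ).natDegree := by rw [hdeg]; exact hK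
  obtain ⟨r, hr, H⟩ := most (P := Polynomial.X ^ K) hP1
  obtain ⟨n₀, h⟩ := H r le_rfl
  obtain ⟨A, hA, h1⟩ := h (1 / 2) (by norm_num)
  obtain ⟨κ, hκ, n₁, h2⟩ := all_bound hP1 hr
  refine ⟨r, hr, A, hA, n₀ + n₁ + 1, fun d hd hd3 s hs n hn => ?_⟩
  have h3 := h1 d hd hd3 s hs n (by omega)
  have h4 := h2 n (by omega)
  have hn0 : (0 : ℝ) < n := by exact_mod_cast (by omega : 0 < n)
  have h5 : (0 : ℝ) < polyReps (fun _ => True) n (Polynomial.X ^ K) r := lt_of_lt_of_le (by positivity) h4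
  have h6 : polyReps (fun x => ¬ Captured d (A * |(d : ℝ)|) (s * x)) n (Polynomial.X ^ K) r <
      polyReps (fun _ => True) n (Polynomial.X ^ K) r := by
    have : (polyReps (fun x => ¬ Captured d (A * |(d : ℝ)|) (s * x)) n (Polynomial.X ^ K) r : ℝ) <
        polyReps (fun _ => True) n (Polynomial.X ^ K) r := by linarith
    exact_mod_cast this
  unfold polyReps at h6
  obtain ⟨m, ⟨hm1, hm2, _⟩, hm4⟩ := Set.exists_mem_notMem_of_ncard_lt_ncard h6
    (Pool.Agent.Q49.WA.polyRepsQ_finite (fun x => ¬ Captured d (A * |(d : ℝ)|) (s * x)) n _ hP1 r)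
  have hm5 : Captured d (A * |(d : ℝ)|) (s * ((n : ℤ) - ∑ j, (Polynomial.X ^ K : Polynomial ℤ).eval (m j : ℤ))) := by
    by_contra hcon
    exact hm4 ⟨hm1, hm2, hcon⟩
  simp only [Polynomial.eval_pow, Polynomial.eval_X] at hm1 hm2 hm5
  exact ⟨_, hm2, hm5, m, fun j => (hm1 j).1, by ring⟩

/-- `d` is odd and prime to `3` throughout; `c₀ = 0.05004...`. (1) For all `0 < c < c₀`, `r`, `t ≥ 1`, `B`, `K` there
is `C` such that for ALL `d`, both signs `s`, all `y > 0`, `N ≥ 1`, all `r` families of integers of absolute value at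
most `N`, at least `2 t` of which have energy at most `K L ^ (2 t) / N`, and EVERY integer `n` with `|n| ≤ B N`: at
most `C (|d| / y) ^ c` times all choices lead to an integer `x = n - (sum of the members) > 0` for which the orbit of
`s x` under the `3x+d` map does not meet `[-y, y]`. (2) Let `P` be a nonconstant integer polynomial, `r ≥ r₀ (P)` and
`0 < c < c₀`. For ALL `d`, `s`, `y > 0` and `n ≥ 1` at most `C (|d| / y) ^ c n ^ (r / deg P)` of the `r`-tuples of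
positive integers `m j` with `|P (m j)| ≤ n` lead to an integer `x = n - ∑ P (m j) > 0` for which the orbit of `s x`
does not meet `[-y, y]`; for `n ≥ n₀` at least `κ n ^ (r / deg P)` of these tuples lead to an `x > 0`. (3) For every
nonconstant integer polynomial `P` and `r ≥ r₀ (P)` there is `n₀`, and for every `ε > 0` there is `A`, such that for
ALL `d` and `s` and ALL `n ≥ n₀`: among the tuples which lead to an integer `x = n - ∑ P (m j) > 0` the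
proportion of those for which the orbit of `s x` does not meet the finite set `[-A |d|, A |d|]` is at most `ε`. (4) For
every `K ≥ 1` there are `r`, `A`, `n₀` such that for ALL `d` and `s` every `n ≥ n₀` is the sum of `r` positive `K`-th
powers and of an integer `x > 0` for which the orbit of `s x` meets `[-A |d|, A |d|]`. -/
theorem result :
    (∀ c : ℝ, 0 < c → c < c₀ → ∀ r t B : ℕ, 1 ≤ t → ∀ K : ℝ, ∃ C : ℝ, 0 < C ∧
      ∀ d : ℤ, d % 2 = 1 → ¬ (3 : ℤ) ∣ d → ∀ s : ℤ, (s = 1 ∨ s = -1) → ∀ y : ℝ, 0 < y → ∀ N : ℕ, 1 ≤ N →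
      ∀ (L : Fin r → ℕ) (a : ∀ j, Fin (L j) → ℤ), (∀ j i, |a j i| ≤ N) →
      ∀ J : Finset (Fin r), 2 * t ≤ J.card → (∀ j ∈ J, Spread t K N (a j)) → ∀ n : ℤ, |n| ≤ B * N →
        (reps (fun x => ¬ Captured d y (s * x)) n a : ℝ) ≤ C * (|(d : ℝ)| / y) ^ c * ∏ j, (L j : ℝ)) ∧
    (∀ P : Polynomial ℤ, 1 ≤ P.natDegree → ∀ c : ℝ, 0 < c → c < c₀ → ∃ r₀ : ℕ, ∀ r : ℕ, r₀ ≤ r →
      (∃ C : ℝ, 0 < C ∧ ∀ d : ℤ, d % 2 = 1 → ¬ (3 : ℤ) ∣ d → ∀ s : ℤ, (s = 1 ∨ s = -1) →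
        ∀ y : ℝ, 0 < y → ∀ n : ℕ, 1 ≤ n → (polyReps (fun x => ¬ Captured d y (s * x)) n P r : ℝ) ≤
          C * (|(d : ℝ)| / y) ^ c * (n : ℝ) ^ ((r : ℝ) / P.natDegree)) ∧
      ∃ κ : ℝ, 0 < κ ∧ ∃ n₀ : ℕ, ∀ n : ℕ, n₀ ≤ n →
        κ * (n : ℝ) ^ ((r : ℝ) / P.natDegree) ≤ polyReps (fun _ => True) n P r) ∧
    (∀ P : Polynomial ℤ, 1 ≤ P.natDegree → ∃ r₀ : ℕ, ∀ r : ℕ, r₀ ≤ r → ∃ n₀ : ℕ, ∀ ε : ℝ, 0 < ε →
      ∃ A : ℝ, 0 < A ∧ ∀ d : ℤ, d % 2 = 1 → ¬ (3 : ℤ) ∣ d → ∀ s : ℤ, (s = 1 ∨ s = -1) → ∀ n : ℕ, n₀ ≤ n →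
        (polyReps (fun x => ¬ Captured d (A * |(d : ℝ)|) (s * x)) n P r : ℝ) ≤ ε * polyReps (fun _ => True) n P r) ∧
    ∀ K : ℕ, 1 ≤ K → ∃ r : ℕ, 1 ≤ r ∧ ∃ A : ℝ, 0 < A ∧ ∃ n₀ : ℕ, ∀ d : ℤ, d % 2 = 1 → ¬ (3 : ℤ) ∣ d →
      ∀ s : ℤ, (s = 1 ∨ s = -1) → ∀ n : ℕ, n₀ ≤ n → ∃ x : ℤ, 0 < x ∧ Captured d (A * |(d : ℝ)|) (s * x) ∧
        ∃ m : Fin r → ℕ, (∀ j, 1 ≤ m j) ∧ (n : ℤ) = x + ∑ j, (m j : ℤ) ^ K := by
  refine ⟨fun c hc0 hc r t B ht K => general hc0 hc r t B ht K, fun P hP c hc0 hc => ?_, fun P hP => ?_, fun K hK => powers hK⟩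
  · obtain ⟨r₀, hr₀, h⟩ := poly_bound hc0 hc hP
    exact ⟨r₀, fun r hr => ⟨h r hr, all_bound hP (by omega)⟩⟩
  · obtain ⟨r₀, _, h⟩ := most hP
    exact ⟨r₀, h⟩

end Pool.Agent.Results.MP_d0d59f_nt.WaringUniformInD
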